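import Pool.Agent.TH826.MK.Torus
set_option autoImplicit false

/-!
The part of `K_2 ⊗ ℚ` of the function field of a curve which is generated by the symbols of the
functions without zeros and poles on an affine part, and unramified over the field of constants.
-/

namespace Pool.Agent.X232.CF

open Pool.Agent.TH826.MK

open scoped WithZero TensorProduct

/-- The elements of `K_n(L) ⊗ ℚ` which are unramified at all discrete valuations that are trivial on
the subfield `K`. -/
noncomputable def UnramifiedOver {K L : Type*} [Field K] [Field L] (ι : K →+* L) (n : ℕ) :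
    Submodule ℚ (KQ L n) :=
  ⨅ (v : Valuation L ℤᵐ⁰) (_ : Function.Surjective v) (_ : ∀ c : K, c ≠ 0 → v (ι c) = 1),
    unitPart v n

variable {K A : Type*} [Field K] [CommRing A] (cst : K →+* A) (L : Type*) [Field L] [Algebra A L]

/-- The image of `K_2(K) ⊗ ℚ` in `K_2(L) ⊗ ℚ`. -/
noncomputable def konst : Submodule ℚ (KQ L 2) :=
  LinearMap.range (KQ.map 2 ((algebraMap A L).comp cst))

/-- The elements of `K_2(L) ⊗ ℚ` which are combinations of symbols of units of `A` and unramified at
all discrete valuations of `L` that are trivial on `K`. -/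
noncomputable def Part : Submodule ℚ (KQ L 2) :=
  LinearMap.range (KQ.map 2 (algebraMap A L)) ⊓ UnramifiedOver ((algebraMap A L).comp cst) 2

/-- the quotient by the image of `K_2(K) ⊗ ℚ` -/
def PartMod : Type _ := (Part cst L) ⧸ (konst cst L).submoduleOf (Part cst L)

noncomputable instance : AddCommGroup (PartMod cst L) :=
  Submodule.Quotient.addCommGroup ((konst cst L).submoduleOf (Part cst L))

noncomputable instance : Module ℚ (PartMod cst L) :=
  Submodule.Quotient.module ((konst cst L).submoduleOf (Part cst L))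

/-- the projection to the quotient -/
noncomputable def mkPart : Part cst L →ₗ[ℚ] PartMod cst L :=
  Submodule.mkQ ((konst cst L).submoduleOf (Part cst L))

/-- `ρ` is the regulator: its value at the class of an element of `K_2` of the ring `A` is given by
the regulators of this element. -/
def IsReg {B : Torus A 1 → Prop} (ρ : PartMod cst L →ₗ[ℚ] ({Γ : Torus A 1 // B Γ} → ℝ)) : Prop :=
  ∀ (α : KQ A 2) (h : KQ.map 2 (algebraMap A L) α ∈ Part cst L) (Γ : {Γ : Torus A 1 // B Γ}),
    ρ (mkPart cst L ⟨_, h⟩) Γ = Γ.1.reg α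

/-- The `ℝ`-linear extension of `ρ` to `ℝ ⊗ PartMod`, for the loops `Γ t`, is an isomorphism. -/
def IsIso {T : Type*} {B : Torus A 1 → Prop} (ρ : PartMod cst L →ₗ[ℚ] ({Γ : Torus A 1 // B Γ} → ℝ))
    (Γ : T → {Γ : Torus A 1 // B Γ}) : Prop :=
  Function.Bijective (((LinearMap.funLeft ℚ ℝ Γ).comp ρ).liftBaseChange ℝ)

/-- The part `Part` of `K_2(L) ⊗ ℚ` consists of integral elements modulo the image of `K_2(K) ⊗ ℚ`;
the dimension of the quotient by this image is the number of elements of `T`; the regulator is
well-defined on the quotient, and its `ℝ`-linear extension, for suitable loops `Γ_t` of the types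
`Adm t`, is an isomorphism onto `ℝ ^ T`. -/
def IsoModConstants {T : Type*} (Adm : T → Torus A 1 → Prop) : Prop :=
  Part cst L ≤ Unramified L 2 ⊔ konst cst L ∧
  Module.finrank ℚ (PartMod cst L) = Nat.card T ∧
  ∃ ρ : PartMod cst L →ₗ[ℚ] ({Γ : Torus A 1 // ∃ t, Adm t Γ} → ℝ), IsReg cst L ρ ∧
    ∃ Γ : T → {Γ : Torus A 1 // ∃ t, Adm t Γ}, (∀ t, Adm t (Γ t).1) ∧ IsIso cst L ρ Γ

end Pool.Agent.X232.CF
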