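import Pool.Agent.X232.CU.Iso
import Pool.Agent.X232.CF.Defs
set_option autoImplicit false

/-!
An abstract form of the theorem on the cuspidal part of `K_2` of curves.
-/

namespace Pool.Agent.X232.CF

open Pool.Agent.TH826.MK

open Pool.Agent.X232.CU (sy sy_mul_left sy_mul_right sy_prod_left sy_prod_right sy_zpow_left
  sy_zpow_right sy_one_left sy_one_right map_sy sy_self symb_eq_sy span_symb s1 s1_ext lc od tame
  tame_sy tm vH vH_apply tame_unitPart s1_one pair_self pair_const reg_eq_zero Av descend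
  iso_abstract lc_mul od_mul)

open scoped WithZero TensorProduct

section psi

variable {K A : Type*} [Field K] [CommRing A] (cst : K →+* A) {V : Type*} [AddCommGroup V]
  [Module ℚ V] (Ψ : KQ A 2 →ₗ[ℚ] V)

/-- the constants as units -/
noncomputable def cu : Kˣ →* Aˣ := Units.map (cst : K →* A)

theorem coe_cu (c : Kˣ) : (cu cst c : A) = cst c := rfl

/-- alternating functionals -/
def Alt : Prop := ∀ f : Aˣ, Ψ (sy f f) = 0

variable {Ψ} in
theorem Alt.swap (h : Alt Ψ) (f g : Aˣ) : Ψ (sy f g) = -Ψ (sy g f) := by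
  have h1 := h (f * g)
  rw [sy_mul_left, sy_mul_right, sy_mul_right, map_add, map_add, map_add, h f, h g, zero_add,
    add_zero] at h1
  exact eq_neg_of_add_eq_zero_left h1

/-- the span of the symbols with a constant entry -/
noncomputable def C1 : Submodule ℚ V :=
  Submodule.span ℚ {z | ∃ (c : Kˣ) (f : Aˣ), z = Ψ (sy (cu cst c) f)}

/-- the span of the symbols with two constant entries -/
noncomputable def C2 : Submodule ℚ V :=
  Submodule.span ℚ {z | ∃ c c' : Kˣ, z = Ψ (sy (cu cst c) (cu cst c'))}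

/-- the span of the symbols with two equal entries -/
noncomputable def AA (A : Type*) [CommRing A] : Submodule ℚ (KQ A 2) :=
  Submodule.span ℚ {z | ∃ f : Aˣ, z = sy f f}

variable {Ψ cst} in
theorem C1_left (c : Kˣ) (f : Aˣ) : Ψ (sy (cu cst c) f) ∈ C1 cst Ψ :=
  Submodule.subset_span ⟨c, f, rfl⟩

variable {Ψ cst} in
theorem C1_right (h : Alt Ψ) (c : Kˣ) (f : Aˣ) : Ψ (sy f (cu cst c)) ∈ C1 cst Ψ := by
  rw [h.swap]
  exact (C1 cst Ψ).neg_mem (C1_left c f)

variable {Ψ} in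
theorem map_AA (h : Alt Ψ) {z : KQ A 2} (hz : z ∈ AA A) : Ψ z = 0 := by
  have h1 : AA A ≤ LinearMap.ker Ψ := by
    unfold AA
    rw [Submodule.span_le]
    rintro z ⟨f, rfl⟩
    exact h f
  exact h1 hz

variable {Ψ cst} in
theorem map_C1 {z : KQ A 2} (hz : z ∈ C1 cst (LinearMap.id : KQ A 2 →ₗ[ℚ] KQ A 2)) :
    Ψ z ∈ C1 cst Ψ := by
  unfold C1 at hz
  induction hz using Submodule.span_induction with
  | mem z hz =>
    obtain ⟨c, f, rfl⟩ := hz
    exact C1_left c f
  | zero => rw [map_zero]; exact Submodule.zero_mem _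
  | add x y _ _ hx hy => rw [map_add]; exact Submodule.add_mem _ hx hy
  | smul q x _ hx => rw [map_smul]; exact Submodule.smul_mem _ _ hx

/-- `w ↦ {w, u}` -/
noncomputable def th (u : Aˣ) : KQ K 1 →ₗ[ℚ] V :=
  KQ.lift (fun c => Ψ (sy (cu cst (c 0)) u)) (by
    intro c i x y
    have e : ∀ x : Kˣ, Function.update c i x 0 = x := by
      intro x
      rw [Subsingleton.elim i 0, Function.update_self]
    rw [e, e, e, map_mul, sy_mul_left, map_add]) (by
    rintro c ⟨i, j, hij, -⟩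
    exact absurd hij (by rw [Subsingleton.elim i j]; exact lt_irrefl _))

theorem th_s1 (u : Aˣ) (c : Kˣ) : th cst Ψ u (s1 K c) = Ψ (sy (cu cst c) u) := by
  unfold th s1
  rw [Pool.Agent.TH826.MK.KQ.lift_symb]

end psi

/-- The data: places of degree one, generators of the units up to finite index, classes. -/
structure Data {K A : Type*} [Field K] [CommRing A] (cst : K →+* A) (L : Type*) [Field L]
    [Algebra A L] (ι J T : Type*) [Fintype J] [Fintype T] where
  /-- the places -/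
  pl : ι → A →+* HahnSeries ℤ K
  pl_cst : ∀ P c, pl P (cst c) = HahnSeries.C c
  inj : ∀ P, Function.Injective (pl P)
  unif : ∀ P, ∃ a, (pl P a).order = 1 ∨ (pl P a).order = -1
  /-- the generators -/
  gens : J → Aˣ
  units : ∀ f : Aˣ, ∃ (N : ℕ) (n : J → ℤ) (c : Kˣ), 0 < N ∧
    f ^ N = cu cst c * ∏ j, gens j ^ n j
  rank : ∀ w : J → ℚ, (∀ P, ∑ j, ((pl P (gens j : A)).order : ℚ) * w j = 0) → w = 0
  /-- the classes -/
  cl : T → KQ A 2
  unr : ∀ t, KQ.map 2 (algebraMap A L) (cl t) ∈ Unramified L 2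
  red : ∀ i j, sy (gens i) (gens j) ∈
    Submodule.span ℚ (Set.range cl) ⊔ (C1 cst (LinearMap.id : KQ A 2 →ₗ[ℚ] KQ A 2) ⊔ AA A)

namespace Data

variable {K A : Type*} [Field K] [CommRing A] {cst : K →+* A} {L : Type*} [Field L]
  [Algebra A L] {ι J T : Type*} [Fintype J] [Fintype T] (D : Data cst L ι J T)
  {V : Type*} [AddCommGroup V] [Module ℚ V] {Ψ : KQ A 2 →ₗ[ℚ] V}

include D

/-- membership can be tested on generators, first entry -/
theorem gen_left (W : Submodule ℚ V) (g : Aˣ) (hc : ∀ c, Ψ (sy (cu cst c) g) ∈ W)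
    (h0 : ∀ j, Ψ (sy (D.gens j) g) ∈ W) (f : Aˣ) : Ψ (sy f g) ∈ W := by
  obtain ⟨N, n, c, hN, h⟩ := D.units f
  have h2 : (N : ℚ) • Ψ (sy f g) = Ψ (sy (cu cst c) g) + ∑ j, (n j : ℚ) • Ψ (sy (D.gens j) g) := by
    have h3 := congrArg (fun z => Ψ (sy z g)) h
    simp only [sy_mul_left, sy_prod_left, map_add, map_sum, sy_zpow_left, map_smul] at h3
    rw [← h3, ← zpow_natCast, sy_zpow_left, map_smul]
    simp
  have hN' : (N : ℚ) ≠ 0 := by exact_mod_cast hN.ne'
  have h4 : Ψ (sy f g) = (N : ℚ)⁻¹ • ((N : ℚ) • Ψ (sy f g)) := by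
    rw [smul_smul, inv_mul_cancel₀ hN', one_smul]
  rw [h4, h2]
  exact W.smul_mem _ (W.add_mem (hc c) (W.sum_mem fun j _ => W.smul_mem _ (h0 j)))

/-- membership can be tested on generators, second entry -/
theorem gen_right (W : Submodule ℚ V) (f : Aˣ) (hc : ∀ c, Ψ (sy f (cu cst c)) ∈ W)
    (h0 : ∀ j, Ψ (sy f (D.gens j)) ∈ W) (g : Aˣ) : Ψ (sy f g) ∈ W := by
  obtain ⟨N, n, c, hN, h⟩ := D.units g
  have h2 : (N : ℚ) • Ψ (sy f g) = Ψ (sy f (cu cst c)) + ∑ j, (n j : ℚ) • Ψ (sy f (D.gens j)) := by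
    have h3 := congrArg (fun z => Ψ (sy f z)) h
    simp only [sy_mul_right, sy_prod_right, map_add, map_sum, sy_zpow_right, map_smul] at h3
    rw [← h3, ← zpow_natCast, sy_zpow_right, map_smul]
    simp
  have hN' : (N : ℚ) ≠ 0 := by exact_mod_cast hN.ne'
  have h4 : Ψ (sy f g) = (N : ℚ)⁻¹ • ((N : ℚ) • Ψ (sy f g)) := by
    rw [smul_smul, inv_mul_cancel₀ hN', one_smul]
  rw [h4, h2]
  exact W.smul_mem _ (W.add_mem (hc c) (W.sum_mem fun j _ => W.smul_mem _ (h0 j)))

/-- the span of the classes -/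
noncomputable def C0 (Ψ : KQ A 2 →ₗ[ℚ] V) : Submodule ℚ V :=
  Submodule.span ℚ (Set.range fun t => Ψ (D.cl t))

theorem red' (hA : Alt Ψ) (i j : J) : Ψ (sy (D.gens i) (D.gens j)) ∈ D.C0 Ψ ⊔ C1 cst Ψ := by
  obtain ⟨x, hx, y, hy, e⟩ := Submodule.mem_sup.1 (D.red i j)
  obtain ⟨z, hz, z', hz', e'⟩ := Submodule.mem_sup.1 hy
  rw [← e, ← e', map_add, map_add, map_AA hA hz', add_zero]
  refine Submodule.add_mem_sup ?_ (map_C1 hz)
  have h1 : Submodule.map Ψ (Submodule.span ℚ (Set.range D.cl)) ≤ D.C0 Ψ := by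
    rw [Submodule.map_span]
    refine Submodule.span_mono ?_
    rintro _ ⟨_, ⟨t, rfl⟩, rfl⟩
    exact ⟨t, rfl⟩
  exact h1 ⟨x, hx, rfl⟩

theorem sy_mem (hA : Alt Ψ) (f g : Aˣ) : Ψ (sy f g) ∈ D.C0 Ψ ⊔ C1 cst Ψ := by
  refine D.gen_left _ g (fun c => (le_sup_right : C1 cst Ψ ≤ _) (C1_left c g)) (fun i => ?_) f
  refine D.gen_right _ _ (fun c => (le_sup_right : C1 cst Ψ ≤ _) (C1_right hA c _))
    (fun j => D.red' hA i j) g

theorem all_mem (hA : Alt Ψ) (α : KQ A 2) : Ψ α ∈ D.C0 Ψ ⊔ C1 cst Ψ := by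
  have h1 : α ∈ Submodule.span ℚ (Set.range (symb : (Fin 2 → Aˣ) → _)) := by
    rw [span_symb]
    trivial
  induction h1 using Submodule.span_induction with
  | mem z hz =>
    obtain ⟨u, rfl⟩ := hz
    rw [symb_eq_sy]
    exact D.sy_mem hA _ _
  | zero => rw [map_zero]; exact Submodule.zero_mem _
  | add x y _ _ hx hy => rw [map_add]; exact Submodule.add_mem _ hx hy
  | smul q x _ hx => rw [map_smul]; exact Submodule.smul_mem _ _ hx

/-- `∑ {w_j, g_j}` -/
noncomputable def TH (Ψ : KQ A 2 →ₗ[ℚ] V) : (J → KQ K 1) →ₗ[ℚ] V :=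
  ∑ j, (th cst Ψ (D.gens j)).comp (LinearMap.proj j)

theorem TH_apply (w : J → KQ K 1) : D.TH Ψ w = ∑ j, th cst Ψ (D.gens j) (w j) := by
  unfold TH
  rw [LinearMap.sum_apply]
  rfl

theorem C1_le : C1 cst Ψ ≤ LinearMap.range (D.TH Ψ) ⊔ C2 cst Ψ := by
  classical
  unfold C1
  rw [Submodule.span_le]
  rintro z ⟨c, f, rfl⟩
  refine D.gen_right _ _ (fun c' => ?_) (fun j => ?_) f
  · exact (le_sup_right : C2 cst Ψ ≤ _) (Submodule.subset_span ⟨c, c', rfl⟩)
  · refine (le_sup_left : LinearMap.range (D.TH Ψ) ≤ _) ⟨Pi.single j (s1 K c), ?_⟩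
    rw [TH_apply, Finset.sum_eq_single j]
    · rw [Pi.single_eq_same, th_s1]
    · intro i' _ hi
      rw [Pi.single_eq_of_ne hi, map_zero]
    · intro h
      exact absurd (Finset.mem_univ j) h

section frac

variable [IsFractionRing A L] (P : ι)

/-- the place on the function field -/
noncomputable def plL : L →+* HahnSeries ℤ K := IsFractionRing.lift (D.inj P)

theorem plL_algebraMap (f : A) : D.plL P (algebraMap A L f) = D.pl P f :=
  IsFractionRing.lift_algebraMap _ _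

/-- the discrete valuation -/
noncomputable def vP : Valuation L ℤᵐ⁰ := (vH K).comap (D.plL P)

theorem vP_apply {a : A} (ha : a ≠ 0) :
    D.vP P (algebraMap A L a) = WithZero.exp (-(D.pl P a).order) := by
  show vH K (D.plL P _) = _
  rw [plL_algebraMap, vH_apply (by
    rw [Ne, map_eq_zero_iff _ (D.inj P)]
    exact ha)]

theorem vP_surj : Function.Surjective (D.vP P) := by
  obtain ⟨a, ha⟩ := D.unif P
  have ha0 : a ≠ 0 := by
    rintro rfl
    rw [map_zero, HahnSeries.order_zero] at ha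
    omega
  obtain ⟨ε, hε⟩ : ∃ ε : ℤ, ε * (-(D.pl P a).order) = 1 := by
    rcases ha with h | h
    · exact ⟨-1, by rw [h]; norm_num⟩
    · exact ⟨1, by rw [h]; norm_num⟩
  intro z
  induction z using WithZero.expRecOn with
  | zero => exact ⟨0, map_zero _⟩
  | exp n =>
    refine ⟨algebraMap A L a ^ (n * ε), ?_⟩
    rw [map_zpow₀, D.vP_apply P ha0, ← WithZero.exp_zsmul, smul_eq_mul, mul_assoc, hε, mul_one]

/-- the valuation is trivial on the constants -/
theorem vP_const {c : K} (hc : c ≠ 0) : D.vP P (((algebraMap A L).comp cst) c) = 1 := by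
  have h0 : cst c ≠ 0 := by
    intro h
    have := D.pl_cst P c
    rw [h, map_zero] at this
    exact hc (HahnSeries.C_injective (by rw [← this, map_zero]))
  rw [RingHom.comp_apply, D.vP_apply P h0, D.pl_cst, HahnSeries.order_C, neg_zero,
    WithZero.exp_zero]

/-- the tame symbol at the place -/
noncomputable def DD : KQ L 2 →ₗ[ℚ] KQ K 1 := (tame K).comp (KQ.map 2 (D.plL P))

/-- the leading coefficient of a unit at the place -/
noncomputable def ldc : Aˣ → Kˣ := fun f =>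
  lc (Units.map (D.pl P : A →* HahnSeries ℤ K) f)

theorem ldc_cu (c : Kˣ) : D.ldc P (cu cst c) = c := by
  ext
  show (D.pl P (cu cst c : A)).leadingCoeff = c
  rw [coe_cu, D.pl_cst, HahnSeries.C_apply, HahnSeries.leadingCoeff_of_single]

theorem ord_cu (c : Kˣ) : (D.pl P (cu cst c : A)).order = 0 := by
  rw [coe_cu, D.pl_cst, HahnSeries.order_C]

theorem DD_sy (f g : Aˣ) :
    D.DD P (KQ.map 2 (algebraMap A L) (sy f g)) =
      ((D.pl P (f : A)).order : ℚ) • s1 K (D.ldc P g) -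
        ((D.pl P (g : A)).order : ℚ) • s1 K (D.ldc P f) := by
  unfold DD
  rw [LinearMap.comp_apply, map_sy, map_sy, tame_sy]
  have e : ∀ f : Aˣ, Units.map (D.plL P : L →* HahnSeries ℤ K)
      (Units.map (algebraMap A L : A →* L) f) =
      Units.map (D.pl P : A →* HahnSeries ℤ K) f := by
    intro f
    ext1
    exact D.plL_algebraMap P _
  rw [e, e]
  rfl

theorem DD_unitPart {z : KQ L 2} (hz : z ∈ unitPart (D.vP P) 2) : D.DD P z = 0 :=
  tame_unitPart (D.plL P) hz

theorem vP_mem {z : KQ L 2} (hz : z ∈ UnramifiedOver ((algebraMap A L).comp cst) 2) :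
    z ∈ unitPart (D.vP P) 2 := by
  unfold UnramifiedOver at hz
  simp only [Submodule.mem_iInf] at hz
  exact hz _ (D.vP_surj P) fun c hc => D.vP_const P hc

theorem vP_mem' {z : KQ L 2} (hz : z ∈ Unramified L 2) : z ∈ unitPart (D.vP P) 2 := by
  unfold Unramified at hz
  simp only [Submodule.mem_iInf] at hz
  exact hz _ (D.vP_surj P)

variable (p : V →ₗ[ℚ] KQ L 2) (hp : ∀ α, p (Ψ α) = KQ.map 2 (algebraMap A L) α)

include hp

theorem DD_th (u : Aˣ) (w : KQ K 1) :
    D.DD P (p (th cst Ψ u w)) = -(((D.pl P (u : A)).order : ℚ) • w) := by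
  have h : ((D.DD P).comp p).comp (th cst Ψ u) =
      (-((D.pl P (u : A)).order : ℚ)) • (LinearMap.id : KQ K 1 →ₗ[ℚ] KQ K 1) := by
    refine s1_ext fun c => ?_
    rw [LinearMap.comp_apply, LinearMap.comp_apply, th_s1, hp, DD_sy, ldc_cu, ord_cu]
    rw [LinearMap.smul_apply, LinearMap.id_apply]
    simp
  have h1 := congrArg (fun φ => φ w) h
  simp only [LinearMap.comp_apply, LinearMap.smul_apply, LinearMap.id_apply, neg_smul] at h1
  exact h1

theorem DD_C2 {z : V} (hz : z ∈ C2 cst Ψ) : D.DD P (p z) = 0 := by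
  have h : C2 cst Ψ ≤ LinearMap.ker ((D.DD P).comp p) := by
    unfold C2
    rw [Submodule.span_le]
    rintro z ⟨c, c', rfl⟩
    show D.DD P (p (Ψ _)) = 0
    rw [hp, DD_sy, ord_cu, ord_cu]
    simp
  exact h hz

theorem DD_C0 {z : V} (hz : z ∈ D.C0 Ψ) : D.DD P (p z) = 0 := by
  have h : D.C0 Ψ ≤ LinearMap.ker ((D.DD P).comp p) := by
    unfold C0
    rw [Submodule.span_le]
    rintro _ ⟨t, rfl⟩
    show D.DD P (p (Ψ _)) = 0
    rw [hp]
    exact D.DD_unitPart P (D.vP_mem' P (D.unr t))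
  exact h hz

omit P in
/-- A combination of symbols with a constant entry without residues at the places is a combination
of symbols of constants. -/
theorem C1_mem_C2 {γ : V} (hγ : γ ∈ C1 cst Ψ) (hD : ∀ P, D.DD P (p γ) = 0) : γ ∈ C2 cst Ψ := by
  obtain ⟨z, ⟨w, rfl⟩, κ, hκ, rfl⟩ := Submodule.mem_sup.1 (D.C1_le hγ)
  have hT : ∀ P, ∑ j, ((D.pl P (D.gens j : A)).order : ℚ) • w j = 0 := by
    intro P
    have h := hD P
    rw [map_add, map_add, D.DD_C2 P p hp hκ, add_zero, TH_apply, map_sum, map_sum] at h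
    simp only [D.DD_th P p hp] at h
    rw [Finset.sum_neg_distrib, neg_eq_zero] at h
    exact h
  have hw : w = 0 := by
    funext j
    rw [Pi.zero_apply, ← Module.forall_dual_apply_eq_zero_iff ℚ]
    intro φ
    have h1 := D.rank (fun j => φ (w j)) fun P => by
      have h2 := congrArg φ (hT P)
      rw [map_sum, map_zero] at h2
      simp only [map_smul, smul_eq_mul] at h2
      exact h2
    exact congrFun h1 j
  rw [hw, map_zero, zero_add]
  exact hκ

/-- The elements whose images in the function field have no residues at the places. -/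
theorem main_mem (hA : Alt Ψ) (α : KQ A 2)
    (hα : KQ.map 2 (algebraMap A L) α ∈ UnramifiedOver ((algebraMap A L).comp cst) 2) :
    Ψ α ∈ D.C0 Ψ ⊔ C2 cst Ψ := by
  obtain ⟨τ, hτ, γ, hγ, h⟩ := Submodule.mem_sup.1 (D.all_mem hA α)
  have hD : ∀ P, D.DD P (p γ) = 0 := by
    intro P
    have h1 : γ = Ψ α - τ := by rw [← h]; abel
    rw [h1, map_sub, map_sub, hp, D.DD_unitPart P (D.vP_mem P hα), D.DD_C0 P p hp hτ, sub_zero]
  rw [← h]
  exact Submodule.add_mem_sup hτ (D.C1_mem_C2 p hp hγ hD)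

end frac

end Data

end Pool.Agent.X232.CF
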