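import Pool.Agent.X232.CF.Abs
set_option autoImplicit false

/-!
Relations between symbols modulo the symbols with a constant entry and the symbols `{f, f}`.
-/

namespace Pool.Agent.X232.CF

open Pool.Agent.TH826.MK

open Pool.Agent.X232.CU (sy sy_mul_left sy_mul_right sy_prod_left sy_prod_right sy_zpow_left
  sy_zpow_right sy_one_left sy_one_right sy_div_left sy_div_right sy_inv_left sy_inv_right
  map_sy sy_self symb_eq_sy span_symb sy_steinberg)

variable {K A : Type*} [Field K] [CommRing A] (cst : K →+* A)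

/-- the symbols which are disregarded -/
noncomputable def MM : Submodule ℚ (KQ A 2) :=
  C1 cst (LinearMap.id : KQ A 2 →ₗ[ℚ] KQ A 2) ⊔ AA A

/-- the quotient map -/
noncomputable def pi2 : KQ A 2 →ₗ[ℚ] (KQ A 2 ⧸ MM cst) := (MM cst).mkQ

theorem pi2_zero {z : KQ A 2} : pi2 cst z = 0 ↔ z ∈ MM cst :=
  Submodule.Quotient.mk_eq_zero _

theorem alt_pi2 : Alt (pi2 cst) := fun f =>
  (pi2_zero cst).2 ((le_sup_right : AA A ≤ _) (Submodule.subset_span ⟨f, rfl⟩))

theorem pi2_left (c : Kˣ) (f : Aˣ) : pi2 cst (sy (cu cst c) f) = 0 :=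
  (pi2_zero cst).2 ((le_sup_left : C1 cst _ ≤ _) (Submodule.subset_span ⟨c, f, rfl⟩))

theorem pi2_right (c : Kˣ) (f : Aˣ) : pi2 cst (sy f (cu cst c)) = 0 := by
  rw [(alt_pi2 cst).swap, pi2_left, neg_zero]

/-- two functions with a linear relation -/
theorem pi2_lin (u v : Aˣ) (a b : Kˣ) (h : cst a * (u : A) + cst b * v = 1) :
    pi2 cst (sy u v) = 0 := by
  have h1 : sy (cu cst a * u) (cu cst b * v) = 0 := by
    refine sy_steinberg ?_
    rw [Units.val_mul, Units.val_mul, coe_cu, coe_cu]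
    exact h
  have h2 := congrArg (pi2 cst) h1
  rw [sy_mul_left, sy_mul_right, map_add, map_add, map_zero, pi2_left, sy_mul_right, map_add,
    pi2_right, zero_add, zero_add] at h2
  rw [pi2_left, zero_add] at h2
  exact h2

theorem pi2_neg_left (u v : Aˣ) : pi2 cst (sy (-u) v) = pi2 cst (sy u v) := by
  have h : (-u : Aˣ) ^ (2 : ℤ) = u ^ (2 : ℤ) := by
    ext
    rw [zpow_ofNat, zpow_ofNat, Units.val_pow_eq_pow_val, Units.val_pow_eq_pow_val, Units.val_neg,
      neg_sq]
  have h1 := congrArg (fun z => pi2 cst (sy z v)) h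
  simp only [sy_zpow_left, map_smul] at h1
  have h2 : ((2 : ℤ) : ℚ) ≠ 0 := by norm_num
  exact smul_right_injective _ h2 h1

/-- `{z, g} = 0` if `g² = (1 - e z)²` with `e = ± 1` -/
theorem pi2_sq (z g : Aˣ) (e : A) (he : e = 1 ∨ e = -1) (h : (g : A) = (1 - e * z) ^ 2) :
    pi2 cst (sy z g) = 0 := by
  have hu : IsUnit (1 - e * (z : A)) := by
    have : IsUnit ((1 - e * (z : A)) ^ 2) := by
      rw [← h]
      exact g.isUnit
    exact (isUnit_pow_iff two_ne_zero).1 this
  have hg : g = hu.unit ^ (2 : ℤ) := by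
    ext
    rw [zpow_ofNat, Units.val_pow_eq_pow_val, h]
    rfl
  rw [hg, sy_zpow_right, map_smul]
  have h1 : pi2 cst (sy z hu.unit) = 0 := by
    rcases he with he | he
    · have : sy z hu.unit = 0 := sy_steinberg (by
        rw [IsUnit.unit_spec, he]
        ring)
      rw [this, map_zero]
    · rw [← pi2_neg_left]
      have : sy (-z) hu.unit = 0 := sy_steinberg (by
        rw [IsUnit.unit_spec, he, Units.val_neg]
        ring)
      rw [this, map_zero]
  rw [h1, smul_zero]

/-- membership from a relation in the quotient -/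
theorem mem_of_pi2 {W : Submodule ℚ (KQ A 2)} {z z' : KQ A 2} (hz' : z' ∈ W)
    (h : pi2 cst z = pi2 cst z') : z ∈ W ⊔ MM cst := by
  have h1 : z - z' ∈ MM cst := by
    rw [← pi2_zero, map_sub, h, sub_self]
  have e : z = z' + (z - z') := by abel
  rw [e]
  exact Submodule.add_mem_sup hz' h1

end Pool.Agent.X232.CF
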