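import Pool.Agent.X232.CF.Abs
set_option autoImplicit false

/-!
The regulator isomorphism for curves with places and generators, abstract form.
-/

namespace Pool.Agent.X232.CF

open Pool.Agent.TH826.MK

open Pool.Agent.X232.CU (sy map_sy sy_self symb_eq_sy span_symb pair_self pair_const reg_eq_zero Av
  descend iso_abstract)

open scoped WithZero TensorProduct

section main

variable {K A : Type*} [Field K] [CommRing A] {cst : K →+* A} {L : Type*} [Field L]
  [Algebra A L] {T : Type*} (Adm : T → Torus A 1 → Prop)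

/-- the image in the function field together with all regulators -/
noncomputable def Psi (L : Type*) [Field L] [Algebra A L] (Adm : T → Torus A 1 → Prop) :
    KQ A 2 →ₗ[ℚ] KQ L 2 × ({Γ : Torus A 1 // ∃ t, Adm t Γ} → ℝ) :=
  (KQ.map 2 (algebraMap A L)).prod (LinearMap.pi fun Γ => Γ.1.reg)

theorem Psi_fst (α : KQ A 2) : (Psi L Adm α).1 = KQ.map 2 (algebraMap A L) α := rfl

theorem Psi_snd (α : KQ A 2) (Γ : {Γ : Torus A 1 // ∃ t, Adm t Γ}) :
    (Psi L Adm α).2 Γ = Γ.1.reg α := rfl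

theorem alt_Psi : Alt (Psi L Adm) := fun f => by
  refine Prod.ext ?_ (funext fun Γ => ?_)
  · show KQ.map 2 (algebraMap A L) (sy f f) = 0
    rw [map_sy, sy_self]
  · exact pair_self Γ.1 f

variable (hadm : ∀ t Γ, Adm t Γ → ∀ c : K, ∃ z : ℂ, ∀ θ, Γ.e θ (cst c) = z)

include hadm

theorem reg_const {Γ : Torus A 1} (hΓ : ∃ t, Adm t Γ) (c c' : Kˣ) :
    Γ.reg (sy (cu cst c) (cu cst c')) = 0 := by
  obtain ⟨t, ht⟩ := hΓ
  obtain ⟨z, hz⟩ := hadm t Γ ht c
  obtain ⟨z', hz'⟩ := hadm t Γ ht c'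
  exact pair_const Γ _ _ hz hz'

omit hadm in
theorem cu_sy (c c' : Kˣ) : KQ.map 2 (algebraMap A L)
    (sy (cu cst c) (cu cst c')) = KQ.map 2 ((algebraMap A L).comp cst) (sy c c') := by
  rw [map_sy, map_sy]
  rfl

theorem C2_fst {z : KQ L 2 × ({Γ : Torus A 1 // ∃ t, Adm t Γ} → ℝ)}
    (hz : z ∈ C2 cst (Psi L Adm)) : z.1 ∈ konst cst L ∧ z.2 = 0 := by
  unfold C2 at hz
  induction hz using Submodule.span_induction with
  | mem z hz =>
    obtain ⟨c, c', rfl⟩ := hz
    refine ⟨⟨sy c c', ?_⟩, funext fun Γ => reg_const Adm hadm Γ.2 c c'⟩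
    rw [Psi_fst, cu_sy]
  | zero => exact ⟨Submodule.zero_mem _, rfl⟩
  | add x y _ _ hx hy =>
    exact ⟨Submodule.add_mem _ hx.1 hy.1, by rw [Prod.snd_add, hx.2, hy.2, add_zero]⟩
  | smul q x _ hx => exact ⟨Submodule.smul_mem _ _ hx.1, by rw [Prod.smul_snd, hx.2, smul_zero]⟩

/-- `K_2(K) ⊗ ℚ` has no regulators -/
theorem reg_map_const {Γ : Torus A 1} (hΓ : ∃ t, Adm t Γ) (κ : KQ K 2) :
    Γ.reg (KQ.map 2 cst κ) = 0 := by
  have h1 : κ ∈ Submodule.span ℚ (Set.range (symb : (Fin 2 → Kˣ) → _)) := by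
    rw [span_symb]
    trivial
  induction h1 using Submodule.span_induction with
  | mem z hz =>
    obtain ⟨u, rfl⟩ := hz
    rw [symb_eq_sy, map_sy]
    exact reg_const Adm hadm hΓ _ _
  | zero => rw [map_zero, map_zero]
  | add x y _ _ hx hy => rw [map_add, map_add, hx, hy, add_zero]
  | smul q x _ hx => rw [map_smul, map_smul, hx, smul_zero]

omit hadm in
theorem konst_le_unram : konst cst L ≤ UnramifiedOver ((algebraMap A L).comp cst) 2 := by
  rintro _ ⟨κ, rfl⟩
  have h1 : κ ∈ Submodule.span ℚ (Set.range (symb : (Fin 2 → Kˣ) → _)) := by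
    rw [span_symb]
    trivial
  induction h1 using Submodule.span_induction with
  | mem z hz =>
    obtain ⟨u, rfl⟩ := hz
    unfold UnramifiedOver
    simp only [Submodule.mem_iInf]
    intro v _ hv
    rw [KQ.map_symb]
    exact Submodule.subset_span ⟨_, fun i => hv _ (u i).ne_zero, rfl⟩
  | zero => rw [map_zero]; exact Submodule.zero_mem _
  | add x y _ _ hx hy => rw [map_add]; exact Submodule.add_mem _ hx hy
  | smul q x _ hx => rw [map_smul]; exact Submodule.smul_mem _ _ hx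

omit hadm in
theorem unramified_le {K L : Type*} [Field K] [Field L] (ι : K →+* L) (n : ℕ) :
    Unramified L n ≤ UnramifiedOver ι n := by
  unfold Unramified UnramifiedOver
  refine le_iInf fun v => le_iInf fun hv => le_iInf fun _ => ?_
  exact iInf_le_of_le v (iInf_le _ hv)

variable {ι J : Type*} [Fintype J] [Fintype T] [IsFractionRing A L] (D : Data cst L ι J T)

/-- the image of an element with unramified image -/
theorem im_mem (α : KQ A 2)
    (hα : KQ.map 2 (algebraMap A L) α ∈ UnramifiedOver ((algebraMap A L).comp cst) 2) :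
    ∃ q : T → ℚ, KQ.map 2 (algebraMap A L) α -
      ∑ i, q i • KQ.map 2 (algebraMap A L) (D.cl i) ∈ konst cst L ∧
        ∀ Γ : Torus A 1, (∃ t, Adm t Γ) → Γ.reg α = ∑ i, (q i : ℝ) * Γ.reg (D.cl i) := by
  classical
  have h := D.main_mem (LinearMap.fst ℚ (KQ L 2) ({Γ : Torus A 1 // ∃ t, Adm t Γ} → ℝ))
    (Ψ := Psi L Adm) (fun α => rfl) (alt_Psi Adm) α hα
  obtain ⟨τ, hτ, κ, hκ, e⟩ := Submodule.mem_sup.1 h
  unfold Data.C0 at hτ
  rw [Submodule.mem_span_range_iff_exists_fun] at hτ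
  obtain ⟨q, hq⟩ := hτ
  obtain ⟨k1, k2⟩ := C2_fst Adm hadm hκ
  have e1 := congrArg Prod.fst e
  have e2 := congrArg Prod.snd e
  rw [← hq, Prod.fst_add, Prod.fst_sum] at e1
  rw [← hq, Prod.snd_add, Prod.snd_sum, k2, add_zero] at e2
  refine ⟨q, ?_, fun Γ hΓ => ?_⟩
  · rw [Psi_fst] at e1
    have e3 : KQ.map 2 (algebraMap A L) α -
        ∑ i, q i • KQ.map 2 (algebraMap A L) (D.cl i) = κ.1 := by
      rw [← e1]
      have : ∑ c, (q c • Psi L Adm (D.cl c)).1 =
          ∑ i, q i • KQ.map 2 (algebraMap A L) (D.cl i) :=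
        Finset.sum_congr rfl fun i _ => by rw [Prod.smul_fst]; rfl
      rw [this]
      abel
    rw [e3]
    exact k1
  · have e4 := congrFun e2 ⟨Γ, hΓ⟩
    rw [Psi_snd, Finset.sum_apply] at e4
    rw [← e4]
    refine Finset.sum_congr rfl fun i _ => ?_
    rw [Prod.smul_snd, Pi.smul_apply, Psi_snd]
    exact Rat.smul_def _ _

variable [IsDomain A] [DecidableEq T]
  (hloops : ∀ h : A, h ≠ 0 → ∃ Γ : T → Torus A 1, (∀ t, Adm t (Γ t)) ∧ (∀ t, Av (Γ t) h) ∧
    (Matrix.of fun t i => (Γ t).reg (D.cl i)).det ≠ 0)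

include hloops

/-- the linear independence of the classes modulo `K_2(K)` -/
theorem indep (q : T → ℚ)
    (hq : ∑ i, q i • KQ.map 2 (algebraMap A L) (D.cl i) ∈ konst cst L) : q = 0 := by
  obtain ⟨κ, hκ⟩ := hq
  set α : KQ A 2 := ∑ i, q i • D.cl i - KQ.map 2 cst κ with hα
  have hcomp : ∀ κ : KQ K 2, KQ.map 2 (algebraMap A L) (KQ.map 2 cst κ) =
      KQ.map 2 ((algebraMap A L).comp cst) κ := by
    intro κ
    have h1 : κ ∈ Submodule.span ℚ (Set.range (symb : (Fin 2 → Kˣ) → _)) := by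
      rw [span_symb]
      trivial
    induction h1 using Submodule.span_induction with
    | mem z hz =>
      obtain ⟨u, rfl⟩ := hz
      rw [symb_eq_sy, map_sy, map_sy, map_sy]
      rfl
    | zero => simp only [map_zero]
    | add x y _ _ hx hy => simp only [map_add, hx, hy]
    | smul q x _ hx => simp only [map_smul, hx]
  have h0 : KQ.map 2 (algebraMap A L) α = 0 := by
    rw [hα, map_sub, hcomp, hκ, map_sum, sub_eq_zero]
    exact Finset.sum_congr rfl fun i _ => by rw [map_smul]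
  obtain ⟨h, hh, H⟩ := reg_eq_zero (d := 1) (L := L) h0
  obtain ⟨Γ, h1, h2, h3⟩ := hloops h hh
  have h4 : ∀ t, ∑ i, (q i : ℝ) * (Γ t).reg (D.cl i) = 0 := by
    intro t
    have h5 := H (Γ t) (h2 t)
    rw [hα, map_sub, reg_map_const Adm hadm ⟨t, h1 t⟩, sub_zero, map_sum] at h5
    rw [← h5]
    refine Finset.sum_congr rfl fun i _ => ?_
    rw [map_smul]
    exact (Rat.smul_def _ _).symm
  set M : Matrix T T ℝ := Matrix.of fun t i => (Γ t).reg (D.cl i) with hM
  have h6 : M.mulVec (fun i => (q i : ℝ)) = 0 := by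
    funext t
    rw [Matrix.mulVec]
    show ∑ i, (Γ t).reg (D.cl i) * (q i : ℝ) = 0
    rw [← h4 t]
    exact Finset.sum_congr rfl fun i _ => mul_comm _ _
  have h7 := Matrix.eq_zero_of_mulVec_eq_zero h3 h6
  funext i
  have h8 := congrFun h7 i
  simpa using h8

omit hadm hloops [DecidableEq T] [IsDomain A] in
theorem part_le (h : ∀ α : KQ A 2,
    KQ.map 2 (algebraMap A L) α ∈ UnramifiedOver ((algebraMap A L).comp cst) 2 →
    ∃ q : T → ℚ, KQ.map 2 (algebraMap A L) α -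
      ∑ i, q i • KQ.map 2 (algebraMap A L) (D.cl i) ∈ konst cst L) :
    Part cst L ≤ Unramified L 2 ⊔ konst cst L := by
  rintro _ ⟨⟨α, rfl⟩, hα⟩
  obtain ⟨q, hq⟩ := h α hα
  have e : KQ.map 2 (algebraMap A L) α = ∑ i, q i • KQ.map 2 (algebraMap A L) (D.cl i) +
      (KQ.map 2 (algebraMap A L) α - ∑ i, q i • KQ.map 2 (algebraMap A L) (D.cl i)) := by abel
  rw [e]
  exact Submodule.add_mem_sup (Submodule.sum_mem _ fun i _ => Submodule.smul_mem _ _ (D.unr i)) hq

/-- The regulator isomorphism. -/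
theorem iso_mod_constants : IsoModConstants cst L Adm := by
  obtain ⟨Γ, h1, -, h3⟩ := hloops 1 one_ne_zero
  set PP : Submodule ℚ (KQ A 2) :=
    (UnramifiedOver ((algebraMap A L).comp cst) 2).comap (KQ.map 2 (algebraMap A L)) with hPP
  set toPart : PP →ₗ[ℚ] Part cst L :=
    ((KQ.map 2 (algebraMap A L)).comp PP.subtype).codRestrict _
      fun x => ⟨⟨x.1, rfl⟩, x.2⟩ with htoPart
  set toQ : PP →ₗ[ℚ] PartMod cst L := (mkPart cst L).comp toPart with htoQ
  have toPart_surj : Function.Surjective toPart := by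
    rintro ⟨_, ⟨⟨α, rfl⟩, hα⟩⟩
    exact ⟨⟨α, hα⟩, rfl⟩
  have mk_surj : Function.Surjective (mkPart cst L) :=
    Submodule.mkQ_surjective ((konst cst L).submoduleOf (Part cst L))
  have toQ_surj : Function.Surjective toQ := mk_surj.comp toPart_surj
  have mk_zero : ∀ x : Part cst L, mkPart cst L x = 0 ↔ (x : KQ L 2) ∈ konst cst L := fun x =>
    Submodule.Quotient.mk_eq_zero _
  have toQ_zero : ∀ x : PP, toQ x = 0 ↔ KQ.map 2 (algebraMap A L) x.1 ∈ konst cst L := by
    intro x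
    rw [htoQ, LinearMap.comp_apply, mk_zero]
    exact Iff.rfl
  set regs : KQ A 2 →ₗ[ℚ] ({Γ : Torus A 1 // ∃ t, Adm t Γ} → ℝ) :=
    LinearMap.pi fun Γ => Γ.1.reg with hregs
  obtain ⟨ρ, hρ⟩ : ∃ ρ : PartMod cst L →ₗ[ℚ] ({Γ : Torus A 1 // ∃ t, Adm t Γ} → ℝ),
      ∀ x : PP, ρ (toQ x) = regs.comp PP.subtype x := by
    refine descend toQ toQ_surj _ fun x hx => ?_
    rw [toQ_zero] at hx
    obtain ⟨q, h1, h2⟩ := im_mem Adm hadm D x.1 x.2
    have h3 : ∑ i, q i • KQ.map 2 (algebraMap A L) (D.cl i) ∈ konst cst L := by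
      have h4 := (konst cst L).sub_mem hx h1
      rwa [sub_sub_cancel] at h4
    have h5 := indep Adm hadm D hloops q h3
    funext Γ
    have h6 := h2 Γ.1 Γ.2
    rw [h5] at h6
    show Γ.1.reg x.1 = 0
    rw [h6]
    simp
  have hun : ∀ i : T, D.cl i ∈ PP := fun i =>
    Submodule.mem_comap.2 (unramified_le ((algebraMap A L).comp cst) 2 (D.unr i))
  have hval : ∀ q : T → ℚ, KQ.map 2 (algebraMap A L)
      (∑ i, q i • (⟨D.cl i, hun i⟩ : PP) : PP).1 =
      ∑ i, q i • KQ.map 2 (algebraMap A L) (D.cl i) := by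
    intro q
    rw [Submodule.coe_sum, map_sum]
    exact Finset.sum_congr rfl fun i _ => by rw [Submodule.coe_smul, map_smul]
  obtain ⟨h5, h6⟩ := iso_abstract toQ toQ_surj ρ _ hρ
    (fun i => ⟨D.cl i, hun i⟩) (fun q hq => by
      rw [toQ_zero, hval] at hq
      exact indep Adm hadm D hloops q hq) (fun x => by
      obtain ⟨q, hq, -⟩ := im_mem Adm hadm D x.1 x.2
      refine ⟨q, ?_⟩
      rw [toQ_zero, Submodule.coe_sub, map_sub, hval]
      exact hq) (fun t => ⟨Γ t, t, h1 t⟩) h3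
  refine ⟨part_le D fun α hα => ?_, ?_, ρ, fun α h Γ => ?_, fun t => ⟨Γ t, t, h1 t⟩, h1, h6⟩
  · obtain ⟨q, hq, -⟩ := im_mem Adm hadm D α hα
    exact ⟨q, hq⟩
  · rw [h5, Nat.card_eq_fintype_card]
  · have h4 := hρ ⟨α, Submodule.mem_comap.2 h.2⟩
    exact congrFun h4 Γ

end main

end Pool.Agent.X232.CF
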